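import Pool.Agent.L7h71.UN.Stm

set_option autoImplicit false

/-!
# Project UN (helper71): the parts FRP and FAM
-/

namespace Pool.Agent.L7h93.UN

open Set Filter Function Pool.Agent.L7h71.UN

theorem s_FRP : S_FRP := by
  classical
  intro J ρ V _ U h
  -- the coordinates which are not almost everywhere constant
  let nc : ρ → Prop := fun i => ∀ a : V, ∀ᶠ k in U, h k i ≠ a
  have hc : ∀ i, ¬ nc i → ∃ a : V, ∀ᶠ k in U, h k i = a := by
    intro i hi
    simp only [nc, not_forall] at hi
    obtain ⟨a, ha⟩ := hi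
    refine ⟨a, ?_⟩
    have h1 : ¬ ∀ᶠ k in U, ¬ (h k i = a) := ha
    rw [Ultrafilter.eventually_not] at h1
    exact not_not.1 h1
  -- the relation
  let S : Setoid ρ :=
    { r := fun i j => ∀ᶠ k in U, h k i = h k j
      iseqv :=
        { refl := fun i => Eventually.of_forall fun _ => rfl
          symm := fun hij => hij.mono fun _ hk => hk.symm
          trans := fun hij hjl => (hij.and hjl).mono fun _ hk => hk.1.trans hk.2 } }
  let rp : ρ → ρ := fun i => (Quotient.mk S i).out
  have hrp : ∀ i, ∀ᶠ k in U, h k (rp i) = h k i := by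
    intro i
    have h1 : (Quotient.mk S (rp i)) = Quotient.mk S i := Quotient.out_eq _
    exact Quotient.exact h1
  have hrp2 : ∀ i, rp (rp i) = rp i := by
    intro i
    have h1 : (Quotient.mk S (rp i)) = Quotient.mk S i := Quotient.out_eq _
    simp only [rp] at h1 ⊢
    rw [h1]
  let T : Set ρ := {i | nc i ∧ rp i = i}
  have hT : ∀ i, nc i → rp i ∈ T := by
    intro i hi
    refine ⟨fun a => ?_, hrp2 i⟩
    exact ((hi a).and (hrp i)).mono fun k hk => by rw [hk.2]; exact hk.1
  let e : ρ → V ⊕ T := fun i =>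
    if hi : nc i then Sum.inr ⟨rp i, hT i hi⟩ else Sum.inl (hc i hi).choose
  refine ⟨T, e, ⟨fun t a => ?_, fun s t hst => ?_⟩, ?_⟩
  · rw [Ultrafilter.coe_map, eventually_map]
    exact t.2.1 a
  · rw [Ultrafilter.coe_map, eventually_map]
    change ∀ᶠ k in U, ¬ (h k s = h k t)
    rw [Ultrafilter.eventually_not]
    intro hs
    apply hst
    have h1 : Quotient.mk S (s : ρ) = Quotient.mk S (t : ρ) := Quotient.sound hs
    apply Subtype.ext
    have h2 : rp s = rp t := by simp only [rp]; rw [h1]
    rw [← s.2.2, ← t.2.2, h2]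
  · rw [eventually_all]
    intro i
    by_cases hi : nc i
    · have he : e i = Sum.inr ⟨rp i, hT i hi⟩ := dif_pos hi
      rw [he]
      exact (hrp i).mono fun k hk => hk.symm
    · have he : e i = Sum.inl (hc i hi).choose := dif_neg hi
      rw [he]
      exact (hc i hi).choose_spec

/-- The bind of free types is free. -/
theorem free_bind {J ι V : Type} {U : Ultrafilter J} {θ : J → Ultrafilter (ι → V)}
    (h : ∀ j, Free (θ j)) : Free (U.bind θ) := by
  refine ⟨fun i a => ?_, fun i j hij => ?_⟩
  · change ∀ᶠ x in Filter.bind (U : Filter J) (fun x => (θ x : Filter (ι → V))), x i ≠ a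
    rw [eventually_bind]
    exact Eventually.of_forall fun k => (h k).1 i a
  · change ∀ᶠ x in Filter.bind (U : Filter J) (fun x => (θ x : Filter (ι → V))), x i ≠ x j
    rw [eventually_bind]
    exact Eventually.of_forall fun k => (h k).2 i j hij

/-- The main step: a sequence of free types, almost all of which are different from their limit, does
not exist. -/
theorem key (hF : S_FRP) {r : ℕ} {K : Type} [Finite K] (hS : ∀ n, Star r K n)
    {V : Type} [Countable V] [Infinite V] {M : St r K V} (hM : ¬ Many M) {n : ℕ}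
    (U : Ultrafilter ℕ) (θ : ℕ → Ultrafilter (Fin n → V)) (hθ : ∀ k, Free (θ k))
    (hne : ∀ᶠ k in U, Ext M (θ k) ≠ Ext M (U.bind θ)) : False := by
  classical
  have hz : ∃ z : ℕ → Fin r → V ⊕ Fin n, ∀ᶠ k in U,
      Ext M (θ k) (z k) ≠ Ext M (U.bind θ) (z k) := by
    have h1 : ∀ k, ∃ z : Fin r → V ⊕ Fin n, Ext M (θ k) ≠ Ext M (U.bind θ) →
        Ext M (θ k) z ≠ Ext M (U.bind θ) z := by
      intro k
      by_cases h : Ext M (θ k) = Ext M (U.bind θ)
      · exact ⟨fun _ => Sum.inl (Classical.arbitrary V), fun h' => absurd h h'⟩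
      · obtain ⟨z, hz⟩ := Function.ne_iff.1 h
        exact ⟨z, fun _ => hz⟩
    choose z hz using h1
    exact ⟨z, hne.mono fun k hk => hz k hk⟩
  obtain ⟨z, hz⟩ := hz
  -- the pattern
  let pat : ℕ → Fin r → Option (Fin n) := fun k i => Sum.elim (fun _ => none) some (z k i)
  obtain ⟨π, hπ⟩ : ∃ π, ∀ᶠ k in U, pat k = π := exists_lim U pat
  let ρ : Type := {i : Fin r // π i = none}
  let h : ℕ → ρ → V := fun k i => Sum.elim id (fun _ => Classical.arbitrary V) (z k i.1)
  obtain ⟨T, e, hT, he⟩ := hF ℕ ρ V U h
  let τ : Fin r → V ⊕ (T ⊕ Fin n) := fun i =>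
    if hi : π i = none then Sum.map id Sum.inl (e ⟨i, hi⟩)
    else Sum.inr (Sum.inr ((π i).get (Option.ne_none_iff_isSome.1 hi)))
  let g : ℕ → T → V := fun k t => h k t
  have hsub : ∀ᶠ k in U, ∀ y : Fin n → V, sub (z k) y = sub τ (Sum.elim (g k) y) := by
    refine (hπ.and he).mono fun k hk y => ?_
    obtain ⟨hk1, hk2⟩ := hk
    funext i
    have hki : Sum.elim (fun _ => none) some (z k i) = π i := congrFun hk1 i
    by_cases hi : π i = none
    · have hτ : τ i = Sum.map id Sum.inl (e ⟨i, hi⟩) := dif_pos hi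
      have h2 := hk2 ⟨i, hi⟩
      rw [hi] at hki
      rcases hzi : z k i with a | j
      · have h3 : h k ⟨i, hi⟩ = a := by
          change Sum.elim id (fun _ => Classical.arbitrary V) (z k i) = a
          rw [hzi]
          rfl
        rw [h3] at h2
        unfold L7h71.UN.sub
        rw [hzi, hτ]
        rcases hei : e ⟨i, hi⟩ with v | t
        · rw [hei] at h2
          simpa using h2
        · rw [hei] at h2
          simpa [g] using h2
      · rw [hzi] at hki
        simp at hki
    · have hτ : τ i = Sum.inr (Sum.inr ((π i).get (Option.ne_none_iff_isSome.1 hi))) := dif_neg hi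
      rcases hzi : z k i with a | j
      · rw [hzi] at hki
        exact absurd hki.symm hi
      · rw [hzi] at hki
        unfold L7h71.UN.sub
        rw [hzi, hτ]
        have h4 : (π i).get (Option.ne_none_iff_isSome.1 hi) = j := by
          simp only [← hki, Sum.elim_inr, Option.get_some]
        rw [h4]
        rfl
  haveI : Finite ρ := inferInstanceAs (Finite {i : Fin r // π i = none})
  haveI : Finite T := inferInstance
  have hst := hS (Nat.card T + Nat.card (Fin n) + 1) V M hM ℕ T (Fin n) (Nat.lt_succ_self _)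
    U g θ hT hθ τ
  have hl : lim U (fun k => Ext M (θ k) (z k)) =
      lim U (fun k => lim (θ k) fun y => M (sub τ (Sum.elim (g k) y))) := by
    refine lim_congr (hsub.mono fun k hk => ?_)
    exact lim_congr (Eventually.of_forall fun y => by rw [hk y])
  have hr : lim U (fun k => Ext M (U.bind θ) (z k)) =
      lim U fun j => lim U fun k => lim (θ k) fun y => M (sub τ (Sum.elim (g j) y)) := by
    refine lim_congr (hsub.mono fun j hj => ?_)
    change lim (U.bind θ) (fun x => M (sub (z j) x)) = _
    rw [lim_bind]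
    exact lim_congr (Eventually.of_forall fun k =>
      lim_congr (Eventually.of_forall fun y => by rw [hj y]))
  have hlr : lim U (fun k => Ext M (θ k) (z k)) = lim U (fun k => Ext M (U.bind θ) (z k)) := by
    rw [hl, hr, hst]
  have h5 := lim_spec U (fun k => Ext M (θ k) (z k))
  have h6 := lim_spec U (fun k => Ext M (U.bind θ) (z k))
  obtain ⟨k, hk1, hk2, hk3⟩ := (hz.and (h5.and h6)).exists
  exact hk1 (by rw [hk2, hk3, hlr])

theorem s_FAM (hF : S_FRP) : S_FAM := by
  classical
  intro r K _ hS V _ _ M hM n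
  let Q : Setoid {p : Ultrafilter (Fin n → V) // Free p} :=
    { r := fun p q => Meq M p.1 q.1
      iseqv :=
        { refl := fun _ => rfl
          symm := fun h => Eq.symm h
          trans := fun h h' => Eq.trans h h' } }
  by_cases hfin : Finite (Quotient Q)
  · obtain ⟨m, ⟨f⟩⟩ := Finite.exists_equiv_fin (Quotient Q)
    refine ⟨m, fun c => (f.symm c).out.1, fun c => (f.symm c).out.2, fun p hp => ?_⟩
    refine ⟨f (Quotient.mk Q ⟨p, hp⟩), ?_⟩
    have h1 : Quotient.mk Q (Quotient.out (f.symm (f (Quotient.mk Q ⟨p, hp⟩)))) =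
        Quotient.mk Q ⟨p, hp⟩ := by
      rw [Quotient.out_eq, Equiv.symm_apply_apply]
    exact (Quotient.exact h1.symm)
  · exfalso
    haveI : Infinite (Quotient Q) := not_finite_iff_infinite.1 hfin
    let E := Infinite.natEmbedding (Quotient Q)
    let θ : ℕ → Ultrafilter (Fin n → V) := fun k => (E k).out.1
    have hθ : ∀ k, Free (θ k) := fun k => (E k).out.2
    have hd : ∀ j k, Ext M (θ j) = Ext M (θ k) → j = k := by
      intro j k hjk
      apply E.injective
      rw [← Quotient.out_eq (E j), ← Quotient.out_eq (E k)]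
      exact Quotient.sound hjk
    refine key hF hS hM (hyperfilter ℕ) θ hθ ?_
    have h1 : ({k | Ext M (θ k) = Ext M ((hyperfilter ℕ).bind θ)} : Set ℕ).Finite := by
      apply Set.Subsingleton.finite
      intro j hj k hk
      exact hd j k (hj.trans hk.symm)
    have h2 := h1.compl_mem_cofinite
    exact (Filter.hyperfilter_le_cofinite h2 : _)

end Pool.Agent.L7h93.UN
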